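import Mathlib
import Pool.Agent.Helper872.RN.Sep
import Pool.Agent.V11242.SS.Ineq
import Pool.Agent.Results.MP_360872_lc.RandomEntangled

/-!
# It is consistent that `cov(B) < 𝔠` and that all notions of `n`-entangledness are separated

The measure algebra `P` which adds `|K|⁺` random reals, `|K| = 𝔠`, forces the sentence `SepFor K Y`
for a set `Y` with `|Y| = |K|⁺`: `non(N) ≤ |K| < cov(N)` and `𝔠 ≤ |Y| ≤ |K|⁺`. This sentence implies
`cov(N) = 𝔠` and `cov(B) ≤ non(N) ≤ |K| < 𝔠`, and `cov(N) = 𝔠` implies that for every `n > 1` there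
is a set of reals which is `(𝔠, n)`-entangled but not `(𝔠, n + 1)`-entangled.

`SepHolds P K Y` is the translation into the forcing language of the proposition `SepFor K Y`; a
sentence of the forcing language is the set of the conditions which force it. `covM` is the least
number of meagre sets of reals whose union is the real line.
-/

set_option autoImplicit false

namespace Pool.Agent.Results.MP_360872_lc.RandomModel

open Cardinal MeasureTheory Set Pool.Agent.V11242.RN Pool.Agent.Helper872.RN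
open Pool.Agent.Results.MP_360872_lc.RandomEntangled (covN Entangled)
open Pool.Agent.V11242.SS (covM)

theorem covN_mem : {κ : Cardinal.{0} | ∃ F : Set (Set ℝ), #F = κ ∧ (∀ A ∈ F, volume A = 0) ∧
    ⋃₀ F = Set.univ}.Nonempty := by
  refine ⟨_, Set.range fun x : ℝ => ({x} : Set ℝ), rfl, ?_, ?_⟩
  · rintro _ ⟨x, rfl⟩
    exact measure_singleton x
  · refine Set.eq_univ_of_forall fun x => ⟨{x}, ⟨x, rfl⟩, rfl⟩

theorem lt_covN {K : Type} (h : PhiFor K) : #K < covN := by
  obtain ⟨F, h1, h2, h3⟩ := csInf_mem covN_mem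
  rw [covN, ← h1]
  by_contra hlt
  obtain ⟨x, -, hx⟩ := exists_not_covered h h2 (not_lt.1 hlt)
  have h4 : x ∈ ⋃₀ F := by rw [h3]; exact Set.mem_univ x
  obtain ⟨C, hC, hxC⟩ := h4
  exact hx C hC hxC

theorem covN_le : covN ≤ 𝔠 := by
  have h1 : covN ≤ #(Set.range fun x : ℝ => ({x} : Set ℝ)) := by
    refine csInf_le' ⟨_, rfl, ?_, ?_⟩
    · rintro _ ⟨x, rfl⟩
      exact measure_singleton x
    · refine Set.eq_univ_of_forall fun x => ⟨{x}, ⟨x, rfl⟩, rfl⟩
  refine h1.trans (mk_range_le.trans ?_)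
  rw [mk_real]

theorem covN_eq {K Y : Type} (h : SepFor K Y) : covN = 𝔠 :=
  le_antisymm covN_le ((continuum_le h).trans ((le_succ_of h).trans
    (Order.succ_le_of_lt (lt_covN h.1))))

/-- (1) There are sets `K`, `Y` and a nonempty ccc notion of forcing `P` all of whose conditions
force the sentence `SepFor K Y`. (2) Whenever `SepFor K Y` holds, then `cov(N) = 𝔠` and
`cov(B) < 𝔠`, and for every `n > 1` there is a set of reals which is `(𝔠, n)`-entangled and not
`(𝔠, n + 1)`-entangled. -/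
theorem result :
    (∃ (K Y P : Type) (_ : Preorder P), Nonempty P ∧
      (∀ A : Set P, (∀ p ∈ A, ∀ q ∈ A, p ≠ q → ¬ ∃ r, r ≤ p ∧ r ≤ q) → A.Countable) ∧
      ∀ p : P, p ∈ SepHolds P K Y) ∧
    (∀ K Y : Type, SepFor K Y → covN = 𝔠 ∧ covM < 𝔠 ∧
      ∀ n : ℕ, 1 < n → ∃ E : Set ℝ, Entangled 𝔠 n E ∧ ¬ Entangled 𝔠 (n + 1) E) :=
  ⟨exists_forcing_sep, fun _ _ h => ⟨covN_eq h,
    (Pool.Agent.V11242.SS.covM_le h.1).trans_lt ((lt_covN h.1).trans_le covN_le),
    fun n hn => RandomEntangled.result (covN_eq h) n hn⟩⟩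

end Pool.Agent.Results.MP_360872_lc.RandomModel
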